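import Pool.Agent.Helper51.REC.Goals3

set_option autoImplicit false

namespace Pool.Agent.Helper14.REC

open NumberField Module IsDedekindDomain Pool.Agent.Helper51.RP Pool.Agent.Helper42.PP
  Pool.Agent.Helper51.REC

/-- `brw` with a constant weight outside `S`. -/
theorem brw_const (p : ℕ) [Fact p.Prime] (F : Type) [Field F] [NumberField F] (ε : F)
    (S : Set (HeightOneSpectrum (𝓞 F))) (c : HeightOneSpectrum (𝓞 F) → ZMod p) (c₀ : ZMod p)
    (h : ∀ v, v ∉ S → c v = c₀) (β x : Fˣ) :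
    brw p ε S c β x = c₀ * brk p ε S β x := by
  unfold brw brk
  rw [← smul_eq_mul, smul_finsum]
  apply finsum_congr
  intro W
  by_cases hW : W ∈ S
  · rw [if_pos hW, if_pos hW, smul_zero]
  · rw [if_neg hW, if_neg hW, h W hW, smul_eq_mul]

theorem r_two (h1 : T_LIN) (h2 : T_CON) (h3 : T_ONE) : R_TWO := by
  intro p _ F _ _ ε S hS x β hβ hsep
  obtain ⟨c, hc⟩ := h1 p F ε S hS
  obtain ⟨c₀, hc₀, hcc⟩ := h2 p F ε S hS c hc
  have key : ∀ x β : Fˣ, LocS p S β → Sep p S x β →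
      brk p ε S x β = c₀ * brk p ε S β x := by
    intro x β hβ hs
    rw [hc x β hβ hs, brw_const p F ε S c c₀ hcc β x]
  have h1' : c₀ = 1 := h3 p F ε S hS c₀ hc₀ key
  rw [key x β hβ hsep, h1', one_mul]

end Pool.Agent.Helper14.REC
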